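import Mathlib
import Pool.Agent.P.MP_9100ee_an.Core

set_option autoImplicit false

namespace Pool.Agent.Results.MP_9100ee_an.WeightLF

/-- The Hardy space `H²`, modelled by the square summable Taylor coefficient sequences. -/
abbrev H2 : Type := lp (fun _ : ℕ => ℂ) 2

/-- The value at `z` of the analytic function with Taylor coefficients `f`. -/
noncomputable def ev (f : H2) (z : ℂ) : ℂ := ∑' n, f n * z ^ n

/-- If the bounded operator `W` on `H²` acts as `f ↦ ψ · (f ∘ φ)` with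
`φ z = (a z + b) / (c z + d)` a linear fractional self-map of the disc and `W` is normal, then
`ψ z = κ / (c z + d)` for a constant `κ`. -/
theorem result (a b c d : ℂ) (hdet : a * d - b * c ≠ 0)
    (hden : ∀ z : ℂ, ‖z‖ < 1 → c * z + d ≠ 0)
    (hφ : ∀ z : ℂ, ‖z‖ < 1 → ‖(a * z + b) / (c * z + d)‖ < 1)
    (ψ : ℂ → ℂ) (hψ : DifferentiableOn ℂ ψ (Metric.ball 0 1))
    (W : H2 →L[ℂ] H2)
    (hW : ∀ (f : H2) (z : ℂ), ‖z‖ < 1 → ev (W f) z = ψ z * ev f ((a * z + b) / (c * z + d)))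
    (hN : IsStarNormal W) :
    ∃ κ : ℂ, ∀ z : ℂ, ‖z‖ < 1 → ψ z = κ / (c * z + d) :=
  Pool.Agent.P.MP_9100ee_an.main a b c d hdet hden hφ ψ hψ.continuousOn W hW
    hN.star_comm_self.eq.symm

end Pool.Agent.Results.MP_9100ee_an.WeightLF
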